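import Pool.Agent.TH59.WX.GT2

/-!
# The inner automorphisms of `G ≀ S_m` have a complement if `|Out G|` divides `m`
-/

set_option autoImplicit false

namespace Pool.Agent.N600.UK

open Pool.Agent.H391R2 Pool.Agent.H391R2.T4 Pool.Agent.TH59.WX

set_option linter.unusedSectionVars false

/-- The group of inner automorphisms. -/
abbrev Inn (G : Type) [Group G] : Subgroup (MulAut G) := (MulAut.conj : G →* MulAut G).range

theorem aut_conj {G : Type} [Group G] (a : MulAut G) (g : G) :
    a * MulAut.conj g = MulAut.conj (a g) * a := by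
  apply MulEquiv.ext
  intro x
  simp only [MulAut.mul_apply, MulAut.conj_apply, map_mul, map_inv]

instance inn_normal (G : Type) [Group G] : (Inn G).Normal := by
  refine ⟨?_⟩
  rintro _ ⟨g, rfl⟩ a
  exact ⟨a g, by rw [aut_conj, mul_inv_cancel_right]⟩

/-- The group of outer automorphisms. -/
abbrev Out (G : Type) [Group G] : Type := MulAut G ⧸ Inn G

/-- The class of an automorphism. -/
abbrev cls (G : Type) [Group G] : MulAut G →* Out G := QuotientGroup.mk' (Inn G)

theorem cls_eq_one {G : Type} [Group G] (a : MulAut G) :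
    cls G a = 1 ↔ ∃ g : G, MulAut.conj g = a := QuotientGroup.eq_one_iff a

theorem cls_conj {G : Type} [Group G] (g : G) : cls G (MulAut.conj g) = 1 :=
  (cls_eq_one _).2 ⟨g, rfl⟩

theorem conj_inj {G : Type} [Group G] (hZ : ∀ z : G, (∀ g : G, z * g = g * z) → z = 1) :
    Function.Injective (MulAut.conj : G →* MulAut G) := by
  rw [injective_iff_map_eq_one]
  intro z hz
  apply hZ
  intro g
  have h1 : MulAut.conj z g = g := by rw [hz]; rfl
  rw [MulAut.conj_apply, mul_inv_eq_iff_eq_mul] at h1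
  exact h1

section aut

variable {G : Type} [Group G] {m : ℕ}

/-- `G ≀ S_m` inside `Aut G ≀ S_m`. -/
def cm (G : Type) [Group G] (m : ℕ) : Wr G m →* Wr (MulAut G) m :=
  MonoidHom.mk' (fun x => ⟨fun i => MulAut.conj (x.left i), x.right⟩) (fun x y => by
    refine SemidirectProduct.ext (funext fun i => ?_) rfl
    change MulAut.conj ((x * y).left i) = _
    rw [wr_mul_left, map_mul, wr_mul_left])

theorem cm_left (x : Wr G m) (i : Fin m) : (cm G m x).left i = MulAut.conj (x.left i) := rfl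

theorem cm_right (x : Wr G m) : (cm G m x).right = x.right := rfl

theorem cm_inj (hZ : ∀ z : G, (∀ g : G, z * g = g * z) → z = 1) :
    Function.Injective (cm G m) := by
  intro x y h
  refine wr_ext (fun i => ?_) ?_
  · apply conj_inj hZ
    exact congrArg (fun z : Wr (MulAut G) m => z.left i) h
  · exact congrArg (fun z : Wr (MulAut G) m => z.right) h

theorem mem_cm (e : Wr (MulAut G) m) : e ∈ (cm G m).range ↔ ∀ i, cls G (e.left i) = 1 := by
  constructor
  · rintro ⟨x, rfl⟩ i
    exact cls_conj _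
  · intro h
    have h1 : ∀ i, ∃ g : G, MulAut.conj g = e.left i := fun i => (cls_eq_one _).1 (h i)
    choose g hg using h1
    exact ⟨⟨g, e.right⟩, SemidirectProduct.ext (funext fun i => hg i) rfl⟩

/-- The elements of `Aut G ≀ S_m` with all entries in the same class. -/
def PP (G : Type) [Group G] (m : ℕ) : Subgroup (Wr (MulAut G) m) where
  carrier := {d | ∀ i j, cls G (d.left i) = cls G (d.left j)}
  one_mem' := fun i j => rfl
  mul_mem' := by
    intro a b ha hb i j
    rw [wr_mul_left, wr_mul_left, map_mul, map_mul, ha i j, hb (a.right⁻¹ i) (a.right⁻¹ j)]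
  inv_mem' := by
    intro a ha i j
    rw [wr_inv_left, wr_inv_left, map_inv, map_inv, ha (a.right i) (a.right j)]

theorem mem_PP (d : Wr (MulAut G) m) :
    d ∈ PP G m ↔ ∀ i j, cls G (d.left i) = cls G (d.left j) := Iff.rfl

theorem PP_le : PP G m ≤ Subgroup.normalizer ((cm G m).range : Set (Wr (MulAut G) m)) := by
  intro d hd
  have key : ∀ (d : Wr (MulAut G) m), d ∈ PP G m → ∀ e, e ∈ (cm G m).range →
      d * e * d⁻¹ ∈ (cm G m).range := by
    intro d hd e he
    rw [mem_cm] at he ⊢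
    intro i
    rw [wr_mul_left, wr_mul_left, wr_inv_left, map_mul, map_mul, map_inv, he, mul_one,
      hd i (d.right ((d * e).right⁻¹ i)), mul_inv_cancel]
  rw [Subgroup.mem_normalizer_iff]
  intro e
  refine ⟨key d hd e, fun h => ?_⟩
  have h1 := key d⁻¹ (inv_mem hd) _ h
  have h2 : d⁻¹ * (d * e * d⁻¹) * d⁻¹⁻¹ = e := by group
  rwa [h2] at h1

/-- The action of the elements of `PP` on `G ≀ S_m`. -/
noncomputable def act (hZ : ∀ z : G, (∀ g : G, z * g = g * z) → z = 1) :
    PP G m →* MulAut (Wr G m) :=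
  (MulAut.congr (MonoidHom.ofInjective (cm_inj (m := m) hZ)).symm).toMonoidHom.comp
    ((cm G m).range.normalizerMonoidHom.comp (Subgroup.inclusion PP_le))

theorem act_spec (hZ : ∀ z : G, (∀ g : G, z * g = g * z) → z = 1) (d : PP G m) (x : Wr G m) :
    cm G m (act hZ d x) = d * cm G m x * (d : Wr (MulAut G) m)⁻¹ := by
  set e := MonoidHom.ofInjective (cm_inj (m := m) hZ) with he
  have h1 : ∀ y, ((e y : (cm G m).range) : Wr (MulAut G) m) = cm G m y := fun y => rfl
  rw [← h1]
  have h2 : act hZ d x = e.symm ((cm G m).range.normalizerMonoidHom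
    (Subgroup.inclusion PP_le d) (e x)) := rfl
  rw [h2, MulEquiv.apply_symm_apply]
  rfl

theorem act_rel (hZ : ∀ z : G, (∀ g : G, z * g = g * z) → z = 1) (d : PP G m) :
    Rel (act hZ d) d := by
  intro i g
  apply cm_inj (m := m) hZ
  rw [act_spec, mul_inv_eq_iff_eq_mul]
  refine SemidirectProduct.ext (funext fun j => ?_) ?_
  · rw [wr_mul_left, wr_mul_left, cm_left, cm_left, cm_right, sgl_right]
    by_cases hj : j = (d : Wr (MulAut G) m).right i
    · subst hj
      have h1 : (d : Wr (MulAut G) m).right⁻¹ ((d : Wr (MulAut G) m).right i) = i := by simp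
      rw [h1, sgl_left_self, sgl_left_self, aut_conj]
      rfl
    · have h1 : (d : Wr (MulAut G) m).right⁻¹ j ≠ i := by
        intro h
        rw [Equiv.Perm.inv_eq_iff_eq] at h
        exact hj h
      rw [sgl_left_ne h1, sgl_left_ne hj, map_one, mul_one, one_mul]
      rfl
  · rw [wr_mul_right, wr_mul_right, cm_right, cm_right, sgl_right, sgl_right, mul_one, one_mul]

/-- An automorphism is determined by its action on the factors. -/
theorem rel_inj [Nontrivial G] (hZ : ∀ z : G, (∀ g : G, z * g = g * z) → z = 1)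
    (a b : MulAut (Wr G m)) (d : Wr (MulAut G) m) (ha : Rel a d) (hb : Rel b d) : a = b := by
  obtain ⟨g₀, hg₀⟩ := exists_ne (1 : G)
  apply MulEquiv.ext
  intro x
  -- both images act in the same way on the base group
  have key : ∀ (a : MulAut (Wr G m)), Rel a d → ∀ i g,
      a x * sgl (d.right i) (d.left (d.right i) g) * (a x)⁻¹ =
        a (x * sgl i g * x⁻¹) := by
    intro a ha i g
    rw [map_mul, map_mul, map_inv, ha i g]
  have hconj : ∀ i g, ∃ k g', x * sgl i g * x⁻¹ = sgl k g' := by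
    intro i g
    exact ⟨_, _, rel_conj x i g⟩
  have h1 : ∀ i g, a x * sgl (d.right i) (d.left (d.right i) g) * (a x)⁻¹ =
      b x * sgl (d.right i) (d.left (d.right i) g) * (b x)⁻¹ := by
    intro i g
    rw [key a ha, key b hb]
    obtain ⟨k, g', hk⟩ := hconj i g
    rw [hk, ha, hb]
  have h2 : ∀ k g, ((b x)⁻¹ * a x) * sgl k g = sgl k g * ((b x)⁻¹ * a x) := by
    intro k g
    have h3 := h1 (d.right⁻¹ k) ((d.left k)⁻¹ g)
    have h4 : d.right (d.right⁻¹ k) = k := by simp
    rw [h4, MulAut.apply_inv_self, mul_inv_eq_iff_eq_mul] at h3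
    rw [mul_assoc, h3]
    group
  have h3 : (b x)⁻¹ * a x = 1 := by
    have hr : ((b x)⁻¹ * a x).right = 1 := by
      apply Equiv.ext
      intro k
      exact fix_of_comm _ k g₀ hg₀ (h2 k g₀)
    refine wr_ext (fun k => ?_) hr
    refine hZ _ fun g => ?_
    have h4 := congrArg (fun y : Wr G m => y.left k) (h2 k g)
    simpa only [base_mul_left _ _ hr, base_mul_left _ _ (sgl_right k g), sgl_left_self] using h4
  exact (inv_mul_eq_one.1 h3).symm

end aut

section sec

variable {G : Type} [Group G] {m : ℕ}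

/-- The homomorphism `Out G → Aut G ≀ S_m` given by a section and a free action on `m` points. -/
theorem exists_hom [Finite G] (hm : Nat.card (Out G) ∣ m) :
    ∃ s : Out G →* Wr (MulAut G) m, ∀ γ i, cls G ((s γ).left i) = γ := by
  classical
  have hfA : Finite (MulAut G) := by
    exact Finite.of_injective (fun f : MulAut G => (f : G → G)) DFunLike.coe_injective
  have hfO : Finite (Out G) := inferInstance
  have := Fintype.ofFinite (Out G)
  obtain ⟨k, hk⟩ := hm
  obtain ⟨e⟩ : Nonempty (Out G × Fin k ≃ Fin m) := by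
    refine ⟨Fintype.equivOfCardEq ?_⟩
    rw [Fintype.card_prod, Fintype.card_fin, Fintype.card_fin, hk, Nat.card_eq_fintype_card]
  have ht : Function.Surjective (cls G) := QuotientGroup.mk'_surjective _
  let t : Out G → MulAut G := Function.surjInv ht
  have ht' : ∀ γ, cls G (t γ) = γ := Function.surjInv_eq ht
  let π : Out G → Equiv.Perm (Fin m) := fun γ =>
    e.symm.trans ((Equiv.prodCongr (Equiv.mulLeft γ) (Equiv.refl (Fin k))).trans e)
  have hπ : ∀ γ p, π γ (e p) = e (γ * p.1, p.2) := by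
    intro γ p
    simp only [π, Equiv.trans_apply, Equiv.symm_apply_apply]
    rfl
  have hπ' : ∀ γ p, (π γ)⁻¹ (e p) = e (γ⁻¹ * p.1, p.2) := by
    intro γ p
    rw [Equiv.Perm.inv_eq_iff_eq, hπ]
    simp
  let f : Out G → Wr (MulAut G) m := fun γ =>
    ⟨fun i => t (e.symm i).1 * (t (γ⁻¹ * (e.symm i).1))⁻¹, π γ⟩
  refine ⟨MonoidHom.mk' f fun γ δ => ?_, fun γ i => ?_⟩
  · refine SemidirectProduct.ext (funext fun i => ?_) ?_
    · obtain ⟨p, rfl⟩ := e.surjective i
      rw [wr_mul_left]
      change t (e.symm (e p)).1 * (t ((γ * δ)⁻¹ * (e.symm (e p)).1))⁻¹ =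
        t (e.symm (e p)).1 * (t (γ⁻¹ * (e.symm (e p)).1))⁻¹ *
        (t (e.symm ((π γ)⁻¹ (e p))).1 * (t (δ⁻¹ * (e.symm ((π γ)⁻¹ (e p))).1))⁻¹)
      rw [hπ', Equiv.symm_apply_apply, Equiv.symm_apply_apply]
      have h1 : (γ * δ)⁻¹ * p.1 = δ⁻¹ * (γ⁻¹ * p.1) := by rw [mul_inv_rev, mul_assoc]
      rw [h1, mul_assoc, inv_mul_cancel_left]
    · change π (γ * δ) = π γ * π δ
      apply Equiv.ext
      intro i
      obtain ⟨p, rfl⟩ := e.surjective i
      rw [Equiv.Perm.mul_apply, hπ, hπ, hπ, mul_assoc]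
  · change cls G (t (e.symm i).1 * (t (γ⁻¹ * (e.symm i).1))⁻¹) = γ
    rw [map_mul, map_inv, ht', ht']
    group

/-- **The complement.** -/
theorem compl_wr [Finite G] [Nontrivial G] (hm0 : 2 * (Nat.card G + 2) ≤ m)
    (hZ : ∀ z : G, (∀ g : G, z * g = g * z) → z = 1) (hm : Nat.card (Out G) ∣ m) :
    ∃ T : Subgroup (MulAut (Wr G m)),
      IsCompl T (MulAut.conj : Wr G m →* MulAut (Wr G m)).range := by
  obtain ⟨D, hD, hDc, hDin⟩ := exists_D (G := G) (n := m) hm0 hZ
  obtain ⟨s₀, hs₀⟩ := exists_hom (G := G) hm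
  have hj : 0 < m := by
    have := Nat.card_pos (α := G)
    omega
  let j₀ : Fin m := ⟨0, hj⟩
  have hmem : ∀ γ, s₀ γ ∈ PP G m := fun γ i j => by rw [hs₀, hs₀]
  let s : Out G →* MulAut (Wr G m) := (act hZ).comp (s₀.codRestrict (PP G m) hmem)
  have hDs : ∀ γ, D (s γ) = s₀ γ := fun γ =>
    rel_unique (s γ) _ _ (hD _) (act_rel hZ ⟨s₀ γ, hmem γ⟩)
  refine ⟨s.range, ?_, ?_⟩
  · rw [Subgroup.disjoint_def]
    rintro _ ⟨γ, rfl⟩ ⟨w, hw⟩
    have h1 := congrArg (fun a => cls G ((D a).left j₀)) hw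
    simp only [hDs, hDc, hs₀, cls_conj] at h1
    rw [← h1, map_one]
  · rw [codisjoint_iff, eq_top_iff]
    intro a _
    let γ := cls G ((D a).left j₀)
    have h1 : ∀ j, cls G ((D ((s γ)⁻¹ * a)).left j) = 1 := by
      intro j
      rw [map_mul, wr_mul_left, map_mul, map_inv, wr_inv_left, map_inv, hDs, hs₀]
      obtain ⟨u, hu⟩ := hDin a ((s₀ γ)⁻¹.right⁻¹ j) j₀
      rw [hu, map_mul, cls_conj, one_mul, inv_mul_cancel]
    obtain ⟨w, hw⟩ := (mem_cm _).2 h1
    have h2 : MulAut.conj w = (s γ)⁻¹ * a := by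
      refine rel_inj hZ _ _ (D ((s γ)⁻¹ * a)) ?_ (hD _)
      rw [← hw]
      exact rel_conj w
    have h3 : a = s γ * MulAut.conj w := by rw [h2, mul_inv_cancel_left]
    rw [h3]
    exact mul_mem (Subgroup.mem_sup_left ⟨γ, rfl⟩) (Subgroup.mem_sup_right ⟨w, rfl⟩)

/-- The wreath product has trivial centre. -/
theorem center_wr [Nontrivial G] (hZ : ∀ z : G, (∀ g : G, z * g = g * z) → z = 1) (x : Wr G m)
    (hx : ∀ y, x * y = y * x) : x = 1 := by
  obtain ⟨g₀, hg₀⟩ := exists_ne (1 : G)
  have hr : x.right = 1 := by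
    apply Equiv.ext
    intro k
    exact fix_of_comm _ k g₀ hg₀ (hx _)
  refine wr_ext (fun k => ?_) hr
  refine hZ _ fun g => ?_
  have h4 := congrArg (fun y : Wr G m => y.left k) (hx (sgl k g))
  simpa only [base_mul_left _ _ hr, base_mul_left _ _ (sgl_right k g), sgl_left_self] using h4

end sec

end Pool.Agent.N600.UK
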