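import Pool.Agent.N600.UK.Good
import Pool.Agent.N600.UK.Sym
import Pool.Agent.TH444.TW.Cls

/-!
# Wreath products of groups which are kernels of regularly solvable embedding problems only
-/

set_option autoImplicit false

namespace Pool.Agent.N600.UK

open Pool.Agent.H391R2 (Wr wr_mul_left wr_mul_right wr_inv_left)
open Pool.Agent.H391R2.T4 (RegSol exists_equiv_of_ker finite_wr)
open Pool.Agent.TH59.WX
open Pool.Agent.TH444.TW (IsInnerPower RSK inner_rsk RegularOver)

set_option linter.unusedSectionVars false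

/-- The product with the group of a regular extension. -/
theorem snd_rsk (K A : Type) [Field K] [Group A] [Finite A] (hA : RegularOver K A)
    (Γ : Type) [Group Γ] [Finite Γ] : RSK K (MonoidHom.snd A Γ) := by
  refine inner_rsk (A := A) hA _ ?_
  refine ⟨1, 1, (MonoidHom.inl _ _).comp (Pi.evalMonoidHom _ 0), MonoidHom.inr _ _, ?_, ?_,
    fun w => rfl, ?_⟩
  · intro x y hxy
    funext i
    have h1 := congrArg Prod.fst hxy
    rw [Subsingleton.elim i 0]
    exact h1
  · ext ⟨p, w⟩
    rw [MonoidHom.mem_ker]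
    constructor
    · rintro ⟨x, hx⟩
      exact (congrArg Prod.snd hx).symm
    · intro h
      change w = 1 at h
      subst h
      exact ⟨fun _ => p, rfl⟩
  · intro w x
    refine Prod.ext ?_ ?_
    · change 1 * x 0 = 1 * x _ * 1⁻¹ * 1
      rw [one_mul, one_mul, inv_one, mul_one, mul_one]
      exact congrArg x (Subsingleton.elim _ _)
    · change w * 1 = 1 * w
      rw [mul_one, one_mul]

theorem center_base {T : Type} [Group T] {n : ℕ} (hT : CL T) : CL (Fin n → T) := by
  intro z hz
  funext i
  refine hT _ fun g => ?_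
  exact congrFun (hz (fun _ => g)) i

/-- Wreath products of good groups with trivial centre. -/
theorem good_wr {T : Type} [Group T] [Finite T] [Nontrivial T] (hC : CL T) (h : GoodKer T) (n : ℕ)
    (hn : 2 * (Nat.card T + 2) ≤ n) : GoodKer (Wr T n) := by
  intro K L X _ _ _ _ _ _ _ α hα ⟨e⟩
  have hfinW : Finite (Wr T n) := finite_wr T n
  have hfinX : Finite X := finite_of_kernel α e.symm
  obtain ⟨D, -, hDc, -⟩ := exists_D (G := T) (n := n) hn hC
  let ι : Wr T n ≃* α.ker := e.symm
  let c : X →* MulAut (Wr T n) := (MulAut.congr ι.symm).toMonoidHom.comp MulAut.conjNormal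
  have hc : ∀ w : Wr T n, c (ι w) = MulAut.conj w := by
    intro w
    apply MulEquiv.ext
    intro x
    change ι.symm (MulAut.conjNormal (ι w : X) (ι x)) = w * x * w⁻¹
    rw [MulEquiv.symm_apply_eq]
    apply Subtype.ext
    rw [MulAut.conjNormal_apply]
    simp only [map_mul, map_inv, Subgroup.coe_mul, Subgroup.coe_inv]
  let π : X →* Equiv.Perm (Fin n) := (SemidirectProduct.rightHom.comp D).comp c
  have hπ : ∀ w : Wr T n, π (ι w : X) = w.right := by
    intro w
    change (D (c (ι w))).right = w.right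
    rw [hc, hDc]
  let r : X →* Equiv.Perm (Fin n) × (L ≃ₐ[K] L) := π.prod α
  have hr : Function.Surjective r := by
    rintro ⟨p, ρ⟩
    obtain ⟨x₀, rfl⟩ := hα ρ
    refine ⟨(ι ⟨1, p * (π x₀)⁻¹⟩ : X) * x₀, ?_⟩
    refine Prod.ext ?_ ?_
    · change π _ = p
      rw [map_mul, hπ, inv_mul_cancel_right]
    · change α _ = α x₀
      rw [map_mul]
      have h1 : α (ι ⟨1, p * (π x₀)⁻¹⟩ : X) = 1 := (ι _).2
      rw [h1, one_mul]
  have hfinΓ : Finite (L ≃ₐ[K] L) := inferInstance
  have h1 : RegSol K L (Equiv.Perm (Fin n) × (L ≃ₐ[K] L)) (MonoidHom.snd _ _) :=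
    snd_rsk K _ (regularOver_perm K n) (L ≃ₐ[K] L) K L (MulEquiv.refl _)
  refine good_step α hα _ r hr (MonoidHom.snd _ _) (fun x => rfl) h1 ?_
  -- the kernel
  have hpow : GoodKer (Fin n → T) := good_pi (Fin n) (fun _ => T) (fun _ => hC) (fun _ => h)
  refine good_iso ?_ hpow
  let f : (Fin n → T) →* r.ker :=
    (α.ker.subtype.comp (ι.toMonoidHom.comp SemidirectProduct.inl)).codRestrict r.ker (fun b => by
      rw [MonoidHom.mem_ker]
      refine Prod.ext ?_ ?_
      · change π (ι (SemidirectProduct.inl b) : X) = 1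
        rw [hπ]
        rfl
      · exact (ι (SemidirectProduct.inl b)).2)
  refine MulEquiv.ofBijective f ⟨?_, ?_⟩
  · intro a b hab
    have h2 : ((ι (SemidirectProduct.inl a) : α.ker) : X) =
        ((ι (SemidirectProduct.inl b) : α.ker) : X) := congrArg (fun z : r.ker => (z : X)) hab
    exact SemidirectProduct.inl_injective (ι.injective (Subtype.ext h2))
  · rintro ⟨x, hx⟩
    rw [MonoidHom.mem_ker] at hx
    have hx1 : π x = 1 := congrArg Prod.fst hx
    have hx2 : α x = 1 := congrArg Prod.snd hx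
    obtain ⟨w, hw⟩ := ι.surjective ⟨x, hx2⟩
    have h3 : (ι w : X) = x := congrArg Subtype.val hw
    have h4 : w.right = 1 := by rw [← hπ, h3, hx1]
    refine ⟨w.left, Subtype.ext ?_⟩
    change ((ι (SemidirectProduct.inl w.left) : α.ker) : X) = x
    rw [← h3]
    congr 2
    exact SemidirectProduct.ext rfl h4.symm

end Pool.Agent.N600.UK
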