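import Pool.Agent.N600.UK.Defs
import Pool.Agent.N600.UK.GoodWr
import Pool.Agent.TH59.WX.UG

/-!
# The groups of the class are kernels of regularly solvable embedding problems only
-/

set_option autoImplicit false

namespace Pool.Agent.N600.UK

open Nfff32c05
open Pool.Agent.H391R2 (Wr isRealizable_of isRealizable_quotient)
open Pool.Agent.H391R2.T4 (RegSol exists_equiv_of_ker finite_wr HilbField)
open Pool.Agent.TH59.WX
open Pool.Agent.TH444.TW (IsInnerPower RSK inner_rsk RegularOver)

set_option linter.unusedSectionVars false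

theorem cl_of_center {T : Type} [Group T] (h : Subgroup.center T = ⊥) : CL T := by
  intro z hz
  have h1 : z ∈ Subgroup.center T := Subgroup.mem_center_iff.2 fun g => (hz g).symm
  rw [h] at h1
  exact h1

theorem center_of_cl {T : Type} [Group T] (h : CL T) : Subgroup.center T = ⊥ := by
  rw [eq_bot_iff]
  intro z hz
  exact h z fun g => (Subgroup.mem_center_iff.1 hz g).symm

theorem cl_iso {T T' : Type} [Group T] [Group T'] (e : T ≃* T') (h : CL T) : CL T' := by
  intro z hz
  have h1 : e.symm z = 1 := by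
    apply h
    intro g
    apply e.injective
    rw [map_mul, map_mul, e.apply_symm_apply]
    exact hz _
  rw [← e.apply_symm_apply z, h1, map_one]

theorem bound_ge (g : ℕ) : 2 * (g + 2) ≤ ((3 * g + 2).factorial) ^ 3 := by
  have h1 : 3 * g + 2 ≤ (3 * g + 2).factorial := Nat.self_le_factorial _
  generalize (3 * g + 2).factorial = f at h1 ⊢
  have h2 : 2 ≤ f := by omega
  have h3 : 4 * f ≤ f ^ 3 := by
    calc 4 * f = (2 * 2) * f := by ring
      _ ≤ (f * f) * f := Nat.mul_le_mul_right _ (Nat.mul_le_mul h2 h2)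
      _ = f ^ 3 := by ring
  omega

/-- Complete groups. -/
theorem good_complete {T : Type} [Group T] [Finite T] (hC : CL T)
    (hI : ∀ a : MulAut T, ∃ g : T, a = MulAut.conj g)
    (hR : ∀ (K : Type) [Field K] [Infinite K], RegularOver K T) : GoodKer T := by
  intro K L X _ _ _ _ _ _ _ α hα ⟨e⟩
  have hfinX : Finite X := finite_of_kernel α e.symm
  let ι : T ≃* α.ker := e.symm
  let c : X →* MulAut T := (MulAut.congr ι.symm).toMonoidHom.comp MulAut.conjNormal
  have hc : ∀ w : T, c (ι w) = MulAut.conj w := by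
    intro w
    apply MulEquiv.ext
    intro x
    change ι.symm (MulAut.conjNormal (ι w : X) (ι x)) = w * x * w⁻¹
    rw [MulEquiv.symm_apply_eq]
    apply Subtype.ext
    rw [MulAut.conjNormal_apply]
    simp only [map_mul, map_inv, Subgroup.coe_mul, Subgroup.coe_inv]
  have hconj : Function.Bijective (MulAut.conj : T →* MulAut T) :=
    ⟨conj_inj hC, fun a => by
      obtain ⟨g, hg⟩ := hI a
      exact ⟨g, hg.symm⟩⟩
  let E : T ≃* MulAut T := MulEquiv.ofBijective _ hconj
  let π : X →* T := E.symm.toMonoidHom.comp c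
  have hπ : ∀ w : T, π (ι w : X) = w := by
    intro w
    change E.symm (c (ι w)) = w
    rw [hc, MulEquiv.symm_apply_eq]
    rfl
  let r : X →* T × (L ≃ₐ[K] L) := π.prod α
  have hr : Function.Bijective r := by
    constructor
    · rw [injective_iff_map_eq_one]
      intro x hx
      have h1 : π x = 1 := congrArg Prod.fst hx
      have h2 : α x = 1 := congrArg Prod.snd hx
      obtain ⟨w, hw⟩ := ι.surjective ⟨x, h2⟩
      have h3 : (ι w : X) = x := congrArg Subtype.val hw
      rw [← h3, hπ] at h1
      rw [← h3, h1, map_one]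
      rfl
    · rintro ⟨p, ρ⟩
      obtain ⟨x₀, rfl⟩ := hα ρ
      refine ⟨(ι (p * (π x₀)⁻¹) : X) * x₀, ?_⟩
      refine Prod.ext ?_ ?_
      · change π _ = p
        rw [map_mul, hπ, inv_mul_cancel_right]
      · change α _ = α x₀
        rw [map_mul]
        have h1 : α (ι (p * (π x₀)⁻¹) : X) = 1 := (ι _).2
        rw [h1, one_mul]
  have hfinΓ : Finite (L ≃ₐ[K] L) := inferInstance
  have h2 : RegSol K L (T × (L ≃ₐ[K] L)) (MonoidHom.snd _ _) :=
    snd_rsk K T (hR K) (L ≃ₐ[K] L) K L (MulEquiv.refl _)
  exact reg_quot α (MonoidHom.snd _ _) (MulEquiv.ofBijective r hr).symm.toMonoidHom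
    (MulEquiv.ofBijective r hr).symm.surjective (fun y => by
      obtain ⟨x, rfl⟩ := (MulEquiv.ofBijective r hr).surjective y
      change α ((MulEquiv.ofBijective r hr).symm (MulEquiv.ofBijective r hr x)) = (r x).2
      rw [MulEquiv.symm_apply_apply]
      rfl) h2

/-- The properties of the groups of the class. -/
theorem Univ.main {T : Type} [Group T] (h : Univ T) : Finite T ∧ CL T ∧ GoodKer T := by
  induction h with
  | wreath G hZ hC n hn =>
    have hW : Finite (Wr G n) := finite_wr G n
    have hge := bound_ge (Nat.card G)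
    have hC' : CL (Wr G n) := fun x hx => center_wr (cl_of_center hZ) x hx
    refine ⟨hW, hC', ?_⟩
    intro K L X _ _ _ _ _ _ _ α hα hι
    exact reg_kernel' hZ hC n hn K L X α hα hι
  | double G hZ m hm hd n hn =>
    have hW : Finite (Wr G m) := finite_wr G m
    have hm0 : 0 < m := by
      have := Nat.card_pos (α := G)
      omega
    have hW' : Finite (Wr (Wr G m) n) := finite_wr (Wr G m) n
    have hC1 : CL (Wr G m) := fun x hx => center_wr (cl_of_center hZ) x hx
    have hN : Nontrivial (Wr G m) := by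
      obtain ⟨g, hg⟩ := exists_ne (1 : G)
      exact ⟨⟨sgl ⟨0, hm0⟩ g, 1, fun h => hg (sgl_inj (h.trans (sgl_one _).symm))⟩⟩
    have hC2 : CL (Wr (Wr G m) n) := fun x hx => center_wr hC1 x hx
    refine ⟨hW', hC2, ?_⟩
    intro K L X _ _ _ _ _ _ _ α hα hι
    refine reg_kernel' (center_of_cl hC1) ?_ n hn K L X α hα hι
    exact compl_wr hm (cl_of_center hZ) hd
  | complete T hZ hI hR =>
    exact ⟨inferInstance, cl_of_center hZ, good_complete (cl_of_center hZ) hI hR⟩
  | power T h n hn ih =>
    obtain ⟨h1, h2, h3⟩ := ih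
    exact ⟨finite_wr T n, fun x hx => center_wr h2 x hx, good_wr h2 h3 n hn⟩
  | prod I T h ih =>
    have h1 : ∀ i, Finite (T i) := fun i => (ih i).1
    refine ⟨inferInstance, ?_, good_pi I T (fun i => (ih i).2.1) (fun i => (ih i).2.2)⟩
    intro z hz
    classical
    funext i
    refine (ih i).2.1 _ fun g => ?_
    have h2 := congrFun (hz (Pi.mulSingle i g)) i
    rw [Pi.mul_apply, Pi.mul_apply, Pi.mulSingle_eq_same] at h2
    exact h2
  | factor A B h ih =>
    obtain ⟨h1, h2, h3⟩ := ih
    refine ⟨Finite.of_injective (fun a : A => (a, (1 : B))) (fun a b hab => congrArg Prod.fst hab),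
      ?_, good_factor h3⟩
    intro z hz
    have h4 : ((z, 1) : A × B) = 1 := by
      apply h2
      rintro ⟨a, b⟩
      refine Prod.ext (hz a) ?_
      change 1 * b = b * 1
      rw [one_mul, mul_one]
    exact congrArg Prod.fst h4
  | extension T C h h' ih ih' =>
    obtain ⟨h1, h2, h3⟩ := ih
    obtain ⟨h4, h5, h6⟩ := ih'
    have hfin : Finite T := Finite.of_subgroup_quotient C
    refine ⟨hfin, ?_, good_char C h3 h6⟩
    intro z hz
    have h7 : (QuotientGroup.mk' C z) = 1 := by
      apply h5
      intro g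
      obtain ⟨g, rfl⟩ := QuotientGroup.mk'_surjective C g
      rw [← map_mul, hz g, map_mul]
    rw [QuotientGroup.mk'_apply, QuotientGroup.eq_one_iff] at h7
    have h8 : (⟨z, h7⟩ : C) = 1 := by
      apply h2
      intro g
      exact Subtype.ext (hz g)
    exact congrArg Subtype.val h8
  | iso T T' e h ih =>
    obtain ⟨h1, h2, h3⟩ := ih
    exact ⟨Finite.of_equiv _ e.toEquiv, cl_iso e h2, good_iso e h3⟩

/-- Regular solutions over all fields. -/
theorem Univ.reg {T : Type} [Group T] (h : Univ T) (K L X : Type) [Field K] [Field L]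
    [Algebra K L] [FiniteDimensional K L] [IsGalois K L] [Group X] (α : X →* (L ≃ₐ[K] L))
    (hα : Function.Surjective α) (hι : Nonempty (α.ker ≃* T)) : RegSol K L X α := by
  have hfin : Finite T := h.main.1
  exact good_all h.main.2.2 K L X α hα hι

theorem Univ.finite {T X Γ : Type} [Group T] [Group X] [Group Γ] [Finite Γ] (h : Univ T)
    (α : X →* Γ) (hι : Nonempty (α.ker ≃* T)) : Finite X := by
  have hfin : Finite T := h.main.1
  exact finite_of_kernel α hι.some.symm

/-- Solutions over Hilbertian fields. -/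
theorem Univ.hil {T : Type} [Group T] (h : Univ T) (K : Type) [Field K] (hK : HilbField K)
    (L X : Type) [Field L] [Algebra K L] [FiniteDimensional K L] [IsGalois K L] [Group X]
    (α : X →* (L ≃ₐ[K] L)) (hα : Function.Surjective α) (hι : Nonempty (α.ker ≃* T)) :
    ProperSol K L X α := by
  have hfinX : Finite X := h.finite α hι
  exact hil_of_reg K L X hK α (h.reg K L X α hα hι)

/-- Realizability over fields for which regular solutions specialize. -/
theorem Univ.real {T : Type} [Group T] (h : Univ T) (K : Type) [Field K]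
    (hspec : ∀ (L X : Type) [Field L] [Algebra K L] [FiniteDimensional K L] [IsGalois K L]
      [Group X] [Finite X] (β : X →* (L ≃ₐ[K] L)), RegSol K L X β → IsRealizable K X)
    (X : Type) [Group X] (N : Subgroup X) [N.Normal]
    (hN : Nonempty (N ≃* T)) (hfin : Finite (X ⧸ N)) :
    IsRealizable K X ↔ IsRealizable K (X ⧸ N) := by
  have hfinT : Finite T := h.main.1
  have hfinN : Finite N := Finite.of_equiv _ hN.some.symm.toEquiv
  have hfinX : Finite X := Finite.of_subgroup_quotient N
  constructor
  · intro h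
    obtain ⟨L, i1, i2, i3, i4, ⟨f⟩⟩ := exists_gal_of K X h
    exact isRealizable_quotient L ((QuotientGroup.mk' N).comp f.symm.toMonoidHom)
      ((QuotientGroup.mk'_surjective N).comp f.symm.surjective)
  · intro h5
    obtain ⟨L, i1, i2, i3, i4, ⟨f⟩⟩ := exists_gal_of K (X ⧸ N) h5
    let β : X →* (L ≃ₐ[K] L) := f.toMonoidHom.comp (QuotientGroup.mk' N)
    have hβ : Function.Surjective β := f.surjective.comp (QuotientGroup.mk'_surjective N)
    have hker : β.ker = N := by
      ext x
      rw [MonoidHom.mem_ker]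
      change f (QuotientGroup.mk' N x) = 1 ↔ x ∈ N
      rw [map_eq_one_iff f f.injective, QuotientGroup.mk'_apply, QuotientGroup.eq_one_iff]
    exact hspec L X β (h.reg K L X β hβ ⟨(MulEquiv.subgroupCongr hker).trans hN.some⟩)

theorem Univ.real_hilb {T : Type} [Group T] (h : Univ T) (K : Type) [Field K] (hK : HilbField K)
    (X : Type) [Group X] (N : Subgroup X) [N.Normal]
    (hN : Nonempty (N ≃* T)) (hfin : Finite (X ⧸ N)) :
    IsRealizable K X ↔ IsRealizable K (X ⧸ N) := by
  refine h.real K ?_ X N hN hfin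
  intro L X _ _ _ _ _ _ β h
  obtain ⟨F, j1, j2, j3, j4, j5, j6, γ, -⟩ := hil_of_reg K L X hK β h
  exact isRealizable_of F γ.symm

theorem regularOver_of_regSol {K A : Type} [Field K] [Group A]
    (h : RegSol K K A 1) : RegularOver K A := by
  obtain ⟨F, i1, i2, i3, i4, i5, i6, i7, i8, γ, -, h2⟩ := h
  have h34 : i3 = i4 := by
    refine Algebra.algebra_ext _ _ fun x => ?_
    exact (@IsScalarTower.algebraMap_apply K K F _ _ _ _ i3 i4 i6 x).symm
  subst h34
  exact ⟨F, i1, i2, i3, i5, i7, i8, ⟨γ⟩, h2⟩

theorem triv_aut {K : Type} [Field K] (σ τ : K ≃ₐ[K] K) : σ = τ := AlgEquiv.ext fun x => by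
  have h1 : ∀ ρ : K ≃ₐ[K] K, ρ x = x := fun ρ => ρ.commutes x
  rw [h1, h1]

theorem Univ.regular_inf {T : Type} [Group T] (h : Univ T) (K : Type) [Field K] [Infinite K]
    (X : Type) [Group X] (N : Subgroup X) [N.Normal]
    (hN : Nonempty (N ≃* T)) (hfin : Finite (X ⧸ N)) (hR : RegSol K K (X ⧸ N) 1) :
    RegSol K K X 1 := by
  have hfinT : Finite T := h.main.1
  have hfinN : Finite N := Finite.of_equiv _ hN.some.symm.toEquiv
  have hfinX : Finite X := Finite.of_subgroup_quotient N
  refine good_step 1 (fun σ => ⟨1, triv_aut _ _⟩) (X ⧸ N) (QuotientGroup.mk' N)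
    (QuotientGroup.mk'_surjective N) 1 (fun x => rfl) hR ?_
  exact good_iso (hN.some.symm.trans
    (MulEquiv.subgroupCongr (QuotientGroup.ker_mk' N).symm)) h.main.2.2

/-- Regular extensions of `K(t)`. -/
theorem Univ.regular {T : Type} [Group T] (h : Univ T) (K : Type) [Field K]
    (X : Type) [Group X] (N : Subgroup X) [N.Normal]
    (hN : Nonempty (N ≃* T)) (hfin : Finite (X ⧸ N)) :
    RegularOver K X ↔ RegularOver K (X ⧸ N) := by
  have hfinT : Finite T := h.main.1
  have hfinN : Finite N := Finite.of_equiv _ hN.some.symm.toEquiv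
  have hfinX : Finite X := Finite.of_subgroup_quotient N
  constructor
  · intro h1
    refine regularOver_of_regSol ?_
    exact reg_quot 1 1 (QuotientGroup.mk' N) (QuotientGroup.mk'_surjective N) (fun y => rfl)
      (Pool.Agent.TH444.TW.regSol_of_regularOver h1)
  · intro h1
    have h2 := Pool.Agent.TH444.TW.regSol_of_regularOver h1
    rcases finite_or_infinite K with hK | hK
    · have hinf : Infinite (RatFunc K) := Pool.Agent.TH444.TW.infinite_ratFunc K
      have h3 := Pool.Agent.TH444.TW.reg_base K (RatFunc K) (X ⧸ N) h2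
      have h4 := h.regular_inf (RatFunc K) X N hN hfin h3
      refine regularOver_of_regSol (Pool.Agent.TH15.IGP.fin_of_inf K K X 1 ?_)
      intro M _ _ _ _ γM
      have hfinΓ : Finite (K ≃ₐ[K] K) := inferInstance
      have h5 := snd_rsk (RatFunc K) X (regularOver_of_regSol h4) (K ≃ₐ[K] K) (RatFunc K) M γM
      exact reg_quot _ _ (MonoidHom.fst X (K ≃ₐ[K] K)) Prod.fst_surjective (fun y => by
        change γM.symm 1 = γM.symm y.2
        rw [triv_aut y.2 1]) h5
    · exact regularOver_of_regSol (h.regular_inf K X N hN hfin h2)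

end Pool.Agent.N600.UK
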