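import Pool.Agent.TH59.WX.PG
import Pool.Agent.TH444.TW.RS
import Pool.Agent.N600.UK.Compl

/-!
# Groups which are kernels of regularly solvable embedding problems only: closure properties
-/

set_option autoImplicit false

namespace Pool.Agent.N600.UK

open Pool.Agent.H391R2 (Wr wr_mul_left wr_mul_right wr_inv_left)
open Pool.Agent.H391R2.T4 (RegSol exists_equiv_of_ker finite_wr)
open Pool.Agent.TH59.WX

set_option linter.unusedSectionVars false

/-- Trivial centre. -/
def CL (T : Type) [Group T] : Prop := ∀ z : T, (∀ g : T, z * g = g * z) → z = 1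

theorem good_iso {T T' : Type} [Group T] [Group T'] (e : T ≃* T') (h : GoodKer T) : GoodKer T' := by
  intro K L X _ _ _ _ _ _ _ α hα ⟨f⟩
  exact h K L X α hα ⟨f.trans e.symm⟩

/-- Quotients of regular solutions (over the same field). -/
theorem reg_quot {K L X Y : Type} [Field K] [Field L] [Algebra K L] [FiniteDimensional K L]
    [IsGalois K L] [Group X] [Group Y] (α : X →* (L ≃ₐ[K] L)) (β : Y →* (L ≃ₐ[K] L))
    (q : Y →* X) (hq : Function.Surjective q) (h : ∀ y, α (q y) = β y) (hr : RegSol K L Y β) :
    RegSol K L X α := by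
  refine Pool.Agent.W200.IJ.regSol_quot (L' := L) α β q hq ?_ ?_ hr
  · intro g
    rw [Pool.Agent.TH444.TW.restrictNormal_self]
    exact h g
  · intro ρ hρ
    rw [Pool.Agent.TH444.TW.restrictNormal_self] at hρ
    exact ⟨1, map_one _, by rw [map_one, hρ]⟩

/-- Direct factors. -/
theorem good_factor {A B : Type} [Group A] [Group B] (h : GoodKer (A × B)) : GoodKer A := by
  intro K L X _ _ _ _ _ _ _ α hα ⟨f⟩
  let β : X × B →* (L ≃ₐ[K] L) := α.comp (MonoidHom.fst X B)
  have hβ : Function.Surjective β := hα.comp Prod.fst_surjective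
  have hker : Nonempty (β.ker ≃* A × B) := by
    let u : A × B →* X × B := ((α.ker.subtype.comp f.symm.toMonoidHom).prodMap (MonoidHom.id B))
    have hu : ∀ p, u p = (((f.symm p.1 : α.ker) : X), p.2) := fun p => rfl
    have hmem : ∀ p, u p ∈ β.ker := fun p => by
      rw [MonoidHom.mem_ker]
      exact (f.symm p.1).2
    refine ⟨(MulEquiv.ofBijective (u.codRestrict β.ker hmem) ⟨?_, ?_⟩).symm⟩
    · intro p q hpq
      have h1 := congrArg Subtype.val hpq
      change u p = u q at h1
      rw [hu, hu, Prod.mk.injEq] at h1
      exact Prod.ext (f.symm.injective (Subtype.ext h1.1)) h1.2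
    · rintro ⟨⟨x, b⟩, hx⟩
      refine ⟨(f ⟨x, hx⟩, b), Subtype.ext ?_⟩
      change u _ = (x, b)
      rw [hu, MulEquiv.symm_apply_apply]
  exact reg_quot α β (MonoidHom.fst X B) Prod.fst_surjective (fun y => rfl)
    (h K L (X × B) β hβ hker)

/-- Extensions by normal subgroups of the big group. -/
theorem good_step {K L X : Type} [Field K] [Infinite K] [Field L] [Algebra K L]
    [FiniteDimensional K L] [IsGalois K L] [Group X] [Finite X] (α : X →* (L ≃ₐ[K] L))
    (_hα : Function.Surjective α) (X' : Type) [Group X'] (r : X →* X')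
    (hr : Function.Surjective r) (δ : X' →* (L ≃ₐ[K] L)) (hδ : ∀ x, δ (r x) = α x)
    (h1 : RegSol K L X' δ) (h2 : GoodKer r.ker) : RegSol K L X α := by
  obtain ⟨F', i1, i2, i3, i4, i5, i6, i7, i8, γ', hγ1, hγ2⟩ := h1
  let β : X →* (F' ≃ₐ[RatFunc K] F') := γ'.symm.toMonoidHom.comp r
  have hβs : Function.Surjective β := γ'.symm.surjective.comp hr
  have hinf : Infinite (RatFunc K) := Infinite.of_injective _ (algebraMap K (RatFunc K)).injective
  have hker : β.ker = r.ker := by
    ext x
    rw [MonoidHom.mem_ker, MonoidHom.mem_ker]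
    change γ'.symm (r x) = 1 ↔ r x = 1
    rw [map_eq_one_iff _ γ'.symm.injective]
  exact collapse K L α δ r hδ F' γ' hγ1 hγ2
    (h2 (RatFunc K) F' X β hβs ⟨MulEquiv.subgroupCongr hker⟩)

/-- Characteristic extensions. -/
theorem good_char {T : Type} [Group T] [Finite T] (C : Subgroup T) [hC : C.Characteristic]
    (h1 : GoodKer C) (h2 : GoodKer (T ⧸ C)) : GoodKer T := by
  intro K L X _ _ _ _ _ _ _ α hα ⟨e⟩
  have hfinX : Finite X := finite_of_kernel α e.symm
  -- the subgroup of `X`
  let u : T →* X := α.ker.subtype.comp e.symm.toMonoidHom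
  have hu : ∀ t, u t = ((e.symm t : α.ker) : X) := fun t => rfl
  have huinj : Function.Injective u := Subtype.val_injective.comp e.symm.injective
  let N : Subgroup X := C.map u
  have hNle : N ≤ α.ker := by
    rintro _ ⟨t, -, rfl⟩
    exact (e.symm t).2
  have hN : N.Normal := by
    refine ⟨?_⟩
    rintro _ ⟨t, ht, rfl⟩ x
    let a : MulAut T := (MulAut.congr e) (MulAut.conjNormal x)
    have ha : a t ∈ C := by
      have h3 := hC.fixed a
      have h4 : t ∈ C.comap (a : T →* T) := by
        have h5 : C.comap a.toMonoidHom = C := hC.fixed a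
        rw [← h5] at ht
        exact ht
      exact h4
    refine ⟨a t, ha, ?_⟩
    have h3 : a t = e (MulAut.conjNormal x (e.symm t)) := rfl
    rw [hu, h3, MulEquiv.symm_apply_apply, MulAut.conjNormal_apply]
    rfl
  let r : X →* X ⧸ N := QuotientGroup.mk' N
  have hr : Function.Surjective r := QuotientGroup.mk'_surjective N
  let δ : X ⧸ N →* (L ≃ₐ[K] L) := QuotientGroup.lift N α (fun x hx => hNle hx)
  have hδ : ∀ x, δ (r x) = α x := fun x => rfl
  have hδs : Function.Surjective δ := fun τ => by
    obtain ⟨x, hx⟩ := hα τ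
    exact ⟨r x, hx⟩
  -- the kernel of `δ`
  have hk : Nonempty (δ.ker ≃* T ⧸ C) := by
    let f : T →* δ.ker := (r.comp u).codRestrict δ.ker (fun t => by
      rw [MonoidHom.mem_ker]
      change δ (r (u t)) = 1
      rw [hδ]
      exact (e.symm t).2)
    have hf : Function.Surjective f := by
      rintro ⟨x', hx'⟩
      obtain ⟨x, rfl⟩ := hr x'
      rw [MonoidHom.mem_ker, hδ] at hx'
      refine ⟨e ⟨x, hx'⟩, Subtype.ext ?_⟩
      change r (u _) = r x
      rw [hu, MulEquiv.symm_apply_apply]
    have hfk : f.ker = (QuotientGroup.mk' C).ker := by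
      rw [QuotientGroup.ker_mk']
      ext t
      rw [MonoidHom.mem_ker]
      constructor
      · intro h
        have h3 : r (u t) = 1 := congrArg Subtype.val h
        rw [QuotientGroup.mk'_apply, QuotientGroup.eq_one_iff] at h3
        obtain ⟨t', ht', h4⟩ := h3
        rwa [← huinj h4]
      · intro h
        apply Subtype.ext
        change r (u t) = 1
        rw [QuotientGroup.mk'_apply, QuotientGroup.eq_one_iff]
        exact ⟨t, h, rfl⟩
    obtain ⟨E, -⟩ := exists_equiv_of_ker f (QuotientGroup.mk' C) hf
      (QuotientGroup.mk'_surjective C) hfk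
    exact ⟨E⟩
  have hrk : GoodKer r.ker := by
    have h3 : r.ker = N := QuotientGroup.ker_mk' N
    refine good_iso ?_ h1
    exact (Subgroup.equivMapOfInjective C u huinj).trans (MulEquiv.subgroupCongr h3.symm)
  exact good_step α hα (X ⧸ N) r hr δ hδ (h2 K L (X ⧸ N) δ hδs hk) hrk

/-- Decomposition in indecomposable factors. -/
theorem exists_decomp (N : ℕ) : ∀ (T : Type) [Group T] [Finite T], CL T → Nat.card T = N →
    ∃ (J : Type) (_ : Finite J) (U : J → Type) (_ : ∀ j, Group (U j)) (_ : ∀ j, Finite (U j)),
      (∀ j, Indec (U j)) ∧ (∀ j, Nontrivial (U j)) ∧ Nonempty (T ≃* ∀ j, U j) := by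
  induction N using Nat.strong_induction_on with
  | _ N ih =>
  intro T _ _ hT hcard
  by_cases htriv : Subsingleton T
  · refine ⟨Empty, inferInstance, fun _ => Unit, fun j => j.elim, fun j => j.elim,
      fun j => j.elim, fun j => j.elim, ⟨?_⟩⟩
    let _ : ∀ j : Empty, Group ((fun _ => Unit) j) := fun j => j.elim
    exact
      { toFun := fun _ j => j.elim
        invFun := fun _ => 1
        left_inv := fun t => Subsingleton.elim _ _
        right_inv := fun f => by funext j; exact j.elim
        map_mul' := fun a b => by funext j; exact j.elim }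
  · have hnt : Nontrivial T := not_subsingleton_iff_nontrivial.1 htriv
    by_cases hI : Indec T
    · refine ⟨Unit, inferInstance, fun _ => T, fun _ => inferInstance, fun _ => inferInstance,
        fun _ => hI, fun _ => hnt, ⟨?_⟩⟩
      exact (MulEquiv.funUnique Unit T).symm
    · unfold Indec at hI
      push Not at hI
      obtain ⟨A, B, hcomm, hgen, hA, hB⟩ := hI
      have hdisj : ∀ t : T, t ∈ A → t ∈ B → t = 1 := by
        intro t ht1 ht2
        apply hT
        intro g
        obtain ⟨a, ha, b, hb, rfl⟩ := hgen g
        rw [← mul_assoc, ← hcomm a ha t ht2, mul_assoc, hcomm t ht1 b hb, mul_assoc]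
      let f : A × B →* T := MonoidHom.mk' (fun p => (p.1 : T) * p.2) (fun p q => by
        change ((p.1 : T) * q.1) * (p.2 * q.2) = p.1 * p.2 * (q.1 * q.2)
        have h1 := hcomm q.1 q.1.2 p.2 p.2.2
        calc ((p.1 : T) * q.1) * (p.2 * q.2) = p.1 * (q.1 * p.2) * q.2 := by group
          _ = p.1 * p.2 * (q.1 * q.2) := by rw [h1]; group)
      have hf : Function.Bijective f := by
        constructor
        · rw [injective_iff_map_eq_one]
          rintro ⟨a, b⟩ hab
          change (a : T) * b = 1 at hab
          have h1 : (a : T) = (b : T)⁻¹ := eq_inv_of_mul_eq_one_left hab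
          have h2 : (a : T) = 1 := hdisj _ a.2 (by rw [h1]; exact inv_mem b.2)
          have h3 : (b : T) = 1 := by rw [h2, one_mul] at hab; exact hab
          exact Prod.ext (Subtype.ext h2) (Subtype.ext h3)
        · intro t
          obtain ⟨a, ha, b, hb, rfl⟩ := hgen t
          exact ⟨(⟨a, ha⟩, ⟨b, hb⟩), rfl⟩
      let E : A × B ≃* T := MulEquiv.ofBijective f hf
      have hcard2 : Nat.card A * Nat.card B = Nat.card T := by
        rw [← Nat.card_prod]
        exact Nat.card_congr E.toEquiv
      have hA1 : 1 < Nat.card A := by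
        have := (Subgroup.nontrivial_iff_ne_bot A).2 hA
        exact Finite.one_lt_card
      have hB1 : 1 < Nat.card B := by
        have := (Subgroup.nontrivial_iff_ne_bot B).2 hB
        exact Finite.one_lt_card
      have hCA : CL A := by
        intro z hz
        apply Subtype.ext
        apply hT
        intro g
        obtain ⟨a, ha, b, hb, rfl⟩ := hgen g
        have h1 : (z : T) * a = a * z := congrArg Subtype.val (hz ⟨a, ha⟩)
        rw [← mul_assoc, h1, mul_assoc, hcomm z z.2 b hb, mul_assoc]
      have hCB : CL B := by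
        intro z hz
        apply Subtype.ext
        apply hT
        intro g
        obtain ⟨a, ha, b, hb, rfl⟩ := hgen g
        have h1 : (z : T) * b = b * z := congrArg Subtype.val (hz ⟨b, hb⟩)
        rw [← mul_assoc, ← hcomm a ha z z.2, mul_assoc, h1, mul_assoc]
      obtain ⟨J₁, j1, U₁, j2, j3, j4, j5, ⟨e₁⟩⟩ := ih (Nat.card A) (by nlinarith) A hCA rfl
      obtain ⟨J₂, k1, U₂, k2, k3, k4, k5, ⟨e₂⟩⟩ := ih (Nat.card B) (by nlinarith) B hCB rfl
      let U : J₁ ⊕ J₂ → Type := Sum.elim U₁ U₂
      let g : ∀ j, Group (U j) := fun j => match j with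
        | Sum.inl j => j2 j
        | Sum.inr j => k2 j
      refine ⟨J₁ ⊕ J₂, inferInstance, U, g, ?_, ?_, ?_, ⟨?_⟩⟩
      · rintro (j | j)
        · exact j3 j
        · exact k3 j
      · rintro (j | j)
        · exact j4 j
        · exact k4 j
      · rintro (j | j)
        · exact j5 j
        · exact k5 j
      · refine E.symm.trans ((MulEquiv.prodCongr e₁ e₂).trans ?_)
        exact
          { toFun := fun p j => match j with
              | Sum.inl j => p.1 j
              | Sum.inr j => p.2 j
            invFun := fun f => (fun j => f (Sum.inl j), fun j => f (Sum.inr j))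
            left_inv := fun p => rfl
            right_inv := fun f => by
              funext j
              rcases j with j | j <;> rfl
            map_mul' := fun p q => by
              funext j
              rcases j with j | j <;> rfl }

/-- A factor of a product of indecomposable groups. -/
theorem good_component {J : Type} [Finite J] {U : J → Type} [∀ j, Group (U j)]
    (h : GoodKer (∀ j, U j)) (j₀ : J) : GoodKer (U j₀) := by
  classical
  have e : (∀ j, U j) ≃* U j₀ × (∀ j : {j // j ≠ j₀}, U j) :=
    { toFun := fun f => (f j₀, fun j => f j)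
      invFun := fun p j => if h : j = j₀ then h ▸ p.1 else p.2 ⟨j, h⟩
      left_inv := fun f => by
        funext j
        by_cases hj : j = j₀
        · subst hj
          simp
        · simp [hj]
      right_inv := fun p => by
        refine Prod.ext ?_ ?_
        · simp
        · funext j
          simp [j.2]
      map_mul' := fun f g => rfl }
  exact good_factor (good_iso e h)

/-- Products of good groups with trivial centre. -/
theorem good_pi (I : Type) [Finite I] (T : I → Type) [∀ i, Group (T i)] [∀ i, Finite (T i)]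
    (hC : ∀ i, CL (T i)) (h : ∀ i, GoodKer (T i)) : GoodKer (∀ i, T i) := by
  have hd := fun i => exists_decomp _ (T i) (hC i) rfl
  choose J hJ U hU1 hU2 hI hN e using hd
  let S := Σ i, J i
  let V : S → Type := fun p => U p.1 p.2
  have hV : GoodKer (∀ p : S, V p) := by
    refine prod_good S V (fun p => hI p.1 p.2) (fun p => hN p.1 p.2) (fun p => ?_)
    exact good_component (good_iso (e p.1).some (h p.1)) p.2
  refine good_iso ?_ hV
  have e1 : (∀ i, T i) ≃* ∀ i, ∀ j : J i, U i j := MulEquiv.piCongrRight fun i => (e i).some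
  refine MulEquiv.trans ?_ e1.symm
  exact
    { toFun := fun f i j => f ⟨i, j⟩
      invFun := fun f p => f p.1 p.2
      left_inv := fun f => rfl
      right_inv := fun f => rfl
      map_mul' := fun f g => rfl }

end Pool.Agent.N600.UK
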