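import Mathlib
import Pool.Agent.H391R2.WrGrp
import Pool.Agent.TH444.TW.ClsDef

/-!
# A class of finite groups

`Wr G n` is the wreath product `G ≀ S_n = (Fin n → G) ⋊ Perm (Fin n)`.

`Univ` is the smallest class of groups which
* contains `G ≀ S_n` if `G` is a nontrivial finite group with trivial centre, `Inn G` has a
  complement in `Aut G`, and `n ≥ ((3 |G| + 2)!)^3`,
* contains `(G ≀ S_m) ≀ S_n` if `G` is ANY nontrivial finite group with trivial centre,
  `m ≥ 2 (|G| + 2)`, the order of `Out G` divides `m`, and `n ≥ ((3 |G ≀ S_m| + 2)!)^3`,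
* contains the finite groups with trivial centre all of whose automorphisms are inner which are
  Galois groups of regular extensions of `K(t)` for all infinite fields `K`
  (for example `S_n`, `n ≥ 3`, `n ≠ 6`),
* contains `T ≀ S_n` if it contains the nontrivial group `T` and `n ≥ 2 (|T| + 2)`,
* is closed under finite direct products and direct factors,
* is closed under characteristic extensions: it contains `T` if it contains `C` and `T / C` for a
  characteristic subgroup `C` of `T`,
* is closed under isomorphisms.
-/

set_option autoImplicit false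

open Pool.Agent.H391R2 (Wr)
open Pool.Agent.TH444.TW (RegularOver)

namespace Pool.Agent.N600.UK

/-- The class of groups. -/
inductive Univ : ∀ (T : Type) [Group T], Prop
  /-- wreath products -/
  | wreath (G : Type) [Group G] [Finite G] [Nontrivial G] (hZ : Subgroup.center G = ⊥)
      (hC : ∃ C : Subgroup (MulAut G), IsCompl C (MulAut.conj : G →* MulAut G).range)
      (n : ℕ) (hn : ((3 * Nat.card G + 2).factorial) ^ 3 ≤ n) : Univ (Wr G n)
  /-- twofold wreath products -/
  | double (G : Type) [Group G] [Finite G] [Nontrivial G] (hZ : Subgroup.center G = ⊥)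
      (m : ℕ) (hm : 2 * (Nat.card G + 2) ≤ m)
      (hd : (MulAut.conj : G →* MulAut G).range.index ∣ m)
      (n : ℕ) (hn : ((3 * Nat.card (Wr G m) + 2).factorial) ^ 3 ≤ n) : Univ (Wr (Wr G m) n)
  /-- complete groups -/
  | complete (T : Type) [Group T] [Finite T] (hZ : Subgroup.center T = ⊥)
      (hI : ∀ a : MulAut T, ∃ g : T, a = MulAut.conj g)
      (hR : ∀ (K : Type) [Field K] [Infinite K], RegularOver K T) : Univ T
  /-- wreath products with groups of the class -/
  | power (T : Type) [Group T] [Nontrivial T] (h : Univ T) (n : ℕ)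
      (hn : 2 * (Nat.card T + 2) ≤ n) : Univ (Wr T n)
  /-- direct products -/
  | prod (I : Type) [Finite I] (T : I → Type) [∀ i, Group (T i)] (h : ∀ i, Univ (T i)) :
      Univ (∀ i, T i)
  /-- direct factors -/
  | factor (A B : Type) [Group A] [Group B] (h : Univ (A × B)) : Univ A
  /-- characteristic extensions -/
  | extension (T : Type) [Group T] (C : Subgroup T) [C.Characteristic] (h : Univ C)
      (h' : Univ (T ⧸ C)) : Univ T
  /-- isomorphic groups -/
  | iso (T T' : Type) [Group T] [Group T'] (e : T ≃* T') (h : Univ T) : Univ T'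

/-- The embedding problem `α : X → Gal(L/K)` over `K` has a proper solution: there are a finite Galois
extension `F` of `K` which contains `L` and an isomorphism `γ : Gal(F/K) ≃ X` such that `α ∘ γ` is
the restriction to `L`. -/
def ProperSol (K L X : Type) [Field K] [Field L] [Algebra K L] [Normal K L] [Group X]
    (α : X →* (L ≃ₐ[K] L)) : Prop :=
  ∃ (F : Type) (_ : Field F) (_ : Algebra K F) (_ : Algebra L F) (_ : IsScalarTower K L F),
    FiniteDimensional K F ∧ IsGalois K F ∧
    ∃ γ : (F ≃ₐ[K] F) ≃* X, ∀ σ : F ≃ₐ[K] F, α (γ σ) = σ.restrictNormal L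

end Pool.Agent.N600.UK
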